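import Pool.Agent.LRG.StmtsH

/-!
# LRG, row FWC: the arcs of a chart fall into at most `E ^ k` classes
-/

set_option autoImplicit false

open Polynomial

namespace Pool.Agent.LRG.H52

open Pool.Agent.LRG

/-- An integer polynomial in all coordinates as a polynomial in the algebraic coordinates over the
polynomials in the free coordinates. -/
noncomputable def spl (m k : ℕ) :
    MvPolynomial (Fin (m + k)) ℤ →+* MvPolynomial (Fin k) (MvPolynomial (Fin m) ℤ) :=
  MvPolynomial.eval₂Hom (Int.castRingHom _) fun l =>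
    if h : (l : ℕ) < k then MvPolynomial.X ⟨l, h⟩
    else MvPolynomial.C (MvPolynomial.X ⟨(l : ℕ) - k, by omega⟩)

theorem spl_eval {m k : ℕ} {O : Type} [CommRing O] (x : Fin (m + k) → O)
    (q : MvPolynomial (Fin (m + k)) ℤ) :
    MvPolynomial.eval₂ (MvPolynomial.eval₂Hom (Int.castRingHom O) (wv x)) (zv x) (spl m k q) =
      MvPolynomial.eval₂ (Int.castRingHom O) x q := by
  have h : (MvPolynomial.eval₂Hom (MvPolynomial.eval₂Hom (Int.castRingHom O) (wv x))
      (zv x)).comp (spl m k) = MvPolynomial.eval₂Hom (Int.castRingHom O) x := by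
    refine MvPolynomial.ringHom_ext (fun r => ?_) (fun l => ?_)
    · simp [spl]
    · have e1 : spl m k (MvPolynomial.X l) = if h : (l : ℕ) < k then MvPolynomial.X ⟨l, h⟩
          else MvPolynomial.C (MvPolynomial.X ⟨(l : ℕ) - k, by omega⟩) := by
        unfold spl
        rw [MvPolynomial.coe_eval₂Hom, MvPolynomial.eval₂_X]
      rw [RingHom.comp_apply, e1]
      by_cases h : (l : ℕ) < k
      · rw [dif_pos h]
        simp [zv]
      · rw [dif_neg h]
        have e2 : (⟨k + ((l : ℕ) - k), by omega⟩ : Fin (m + k)) = l := by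
          apply Fin.ext
          show k + ((l : ℕ) - k) = l
          omega
        simp [wv, e2]
  exact congrArg (fun f : MvPolynomial (Fin (m + k)) ℤ →+* O => f q) h

theorem aeval_int {σ O : Type} [CommRing O] [Algebra ℤ O] (x : σ → O) (q : MvPolynomial σ ℤ) :
    MvPolynomial.aeval x q = MvPolynomial.eval₂ (Int.castRingHom O) x q := by
  rw [MvPolynomial.aeval_def]
  congr 1
  exact RingHom.ext_int _ _

theorem fwc (lft : H.LftStmt) : H.FwcStmt := by
  classical
  intro p _ m k E G κ ξ hG hI h0
  have hinj : ∀ a, Function.Injective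
      (MvPolynomial.eval₂Hom (Int.castRingHom (PowerSeries ℤ_[p])) (wv (ξ a))) := by
    intro a
    have h1 : Function.Injective
        (MvPolynomial.aeval (wv (ξ a)) : MvPolynomial (Fin m) ℤ →ₐ[ℤ] PowerSeries ℤ_[p]) := hI a
    intro u v huv
    apply h1
    rw [aeval_int, aeval_int]
    exact huv
  have hz : ∀ a, ∃ z : Fin k → AlgebraicClosure (FractionRing (MvPolynomial (Fin m) ℤ)),
      (∀ j, (G j).eval₂ (algebraMap (MvPolynomial (Fin m) ℤ)
        (AlgebraicClosure (FractionRing (MvPolynomial (Fin m) ℤ)))) (z j) = 0) ∧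
      ∀ q : MvPolynomial (Fin k) (MvPolynomial (Fin m) ℤ),
        MvPolynomial.eval₂ (MvPolynomial.eval₂Hom (Int.castRingHom (PowerSeries ℤ_[p]))
          (wv (ξ a))) (zv (ξ a)) q = 0 ↔ MvPolynomial.aeval z q = 0 := fun a =>
    lft (MvPolynomial (Fin m) ℤ) (PowerSeries ℤ_[p]) _ k G (zv (ξ a)) (hinj a)
      (fun j => (hG j).1) (h0 a)
  choose z hz1 hz2 using hz
  have hainj : Function.Injective (algebraMap (MvPolynomial (Fin m) ℤ)
      (AlgebraicClosure (FractionRing (MvPolynomial (Fin m) ℤ)))) := by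
    rw [IsScalarTower.algebraMap_eq (MvPolynomial (Fin m) ℤ)
      (FractionRing (MvPolynomial (Fin m) ℤ))
      (AlgebraicClosure (FractionRing (MvPolynomial (Fin m) ℤ)))]
    rw [RingHom.coe_comp]
    exact (FaithfulSMul.algebraMap_injective (FractionRing (MvPolynomial (Fin m) ℤ))
      (AlgebraicClosure (FractionRing (MvPolynomial (Fin m) ℤ)))).comp
      (IsFractionRing.injective (MvPolynomial (Fin m) ℤ)
        (FractionRing (MvPolynomial (Fin m) ℤ)))
  obtain ⟨S, hS⟩ : ∃ S : Finset (Fin k → AlgebraicClosure (FractionRing (MvPolynomial (Fin m) ℤ))),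
      S = Fintype.piFinset (fun j => ((G j).map (algebraMap (MvPolynomial (Fin m) ℤ)
        (AlgebraicClosure (FractionRing (MvPolynomial (Fin m) ℤ))))).roots.toFinset) := ⟨_, rfl⟩
  have hcard : S.card ≤ E ^ k := by
    rw [hS, Fintype.card_piFinset]
    calc ∏ j, ((G j).map (algebraMap (MvPolynomial (Fin m) ℤ)
          (AlgebraicClosure (FractionRing (MvPolynomial (Fin m) ℤ))))).roots.toFinset.card
        ≤ ∏ _j : Fin k, E := by
          refine Finset.prod_le_prod' fun j _ => ?_
          refine le_trans (Multiset.toFinset_card_le _) ?_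
          refine le_trans (Polynomial.card_roots' _) ?_
          exact le_trans Polynomial.natDegree_map_le (hG j).2.1
      _ = E ^ k := by rw [Finset.prod_const, Finset.card_univ, Fintype.card_fin]
  have hmem : ∀ a, z a ∈ S := by
    intro a
    rw [hS, Fintype.mem_piFinset]
    intro j
    rw [Multiset.mem_toFinset, Polynomial.mem_roots', Polynomial.IsRoot.def, Polynomial.eval_map]
    exact ⟨(Polynomial.map_ne_zero_iff hainj).2 (hG j).1, hz1 a j⟩
  refine ⟨fun a => Fin.castLE hcard (S.equivFin ⟨z a, hmem a⟩), ?_⟩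
  intro a b hab q
  have h1 : z a = z b := by
    have h2 := Fin.castLE_injective hcard hab
    have h3 := S.equivFin.injective h2
    exact congrArg Subtype.val h3
  rw [aeval_int, aeval_int, ← spl_eval (ξ a) q, ← spl_eval (ξ b) q, hz2 a, hz2 b, h1]

end Pool.Agent.LRG.H52
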