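import Pool.Agent.LRG.StmtsK

set_option autoImplicit false

open Polynomial

namespace Pool.Agent.LRG.H52

theorem lagP_eval_ne {E : Type} [Field E] {n : ℕ} (x : Fin n → E) (j k : Fin n) (h : k ≠ j) :
    (lagP x j).eval (x k) = 0 := by
  unfold lagP
  rw [Polynomial.eval_prod]
  refine Finset.prod_eq_zero (i := k) (Finset.mem_erase.mpr ⟨h, Finset.mem_univ k⟩) ?_
  simp

theorem lagP_eval_self {E : Type} [Field E] {n : ℕ} (x : Fin n → E) (k : Fin n) :
    (lagP x k).eval (x k) = lagD x k := by
  unfold lagP lagD
  rw [Polynomial.eval_prod]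
  refine Finset.prod_congr rfl fun i _ => ?_
  simp

theorem lagP_degree {E : Type} [Field E] {n : ℕ} (x : Fin n → E) (j : Fin n) :
    (lagP x j).natDegree ≤ n - 1 := by
  unfold lagP
  refine (Polynomial.natDegree_prod_le _ _).trans ?_
  have : ∀ i ∈ (Finset.univ.erase j : Finset (Fin n)), (X - C (x i) : E[X]).natDegree ≤ 1 :=
    fun i _ => (Polynomial.natDegree_X_sub_C (x i)).le
  refine (Finset.sum_le_sum this).trans ?_
  simp [Finset.card_erase_of_mem (Finset.mem_univ j)]

theorem lag : K.LagStmt := by
  intro E _ n x P hx hP a
  have key : C (∏ j, lagD x j) * P = ∑ j, C (lagE x j * P.eval (x j)) * lagP x j := by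
    rcases Nat.eq_zero_or_pos n with hn | hn
    · subst hn
      have : P = 0 := by
        ext m
        rw [hP m (Nat.zero_le m)]
        simp
      rw [this]
      simp
    · have hPd : P.natDegree ≤ n - 1 := by
        rw [Polynomial.natDegree_le_iff_coeff_eq_zero]
        intro m hm
        exact hP m (by omega)
      have h1 : (C (∏ j, lagD x j) * P).natDegree ≤ n - 1 :=
        (Polynomial.natDegree_C_mul_le _ _).trans hPd
      have h2 : (∑ j, C (lagE x j * P.eval (x j)) * lagP x j).natDegree ≤ n - 1 := by
        refine Polynomial.natDegree_sum_le_of_forall_le _ _ fun j _ => ?_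
        exact (Polynomial.natDegree_C_mul_le _ _).trans (lagP_degree x j)
      have h3 : ∀ q : E[X], q.natDegree ≤ n - 1 → q.degree < (n : ℕ) := by
        intro q hq
        refine lt_of_le_of_lt Polynomial.degree_le_natDegree ?_
        exact_mod_cast (by omega : q.natDegree < n)
      have hcard : (Finset.univ : Finset (Fin n)).card = n := by simp
      refine Polynomial.eq_of_degrees_lt_of_eval_index_eq (s := Finset.univ) (v := x)
        (fun i _ j _ h => hx h) ?_ ?_ ?_
      · rw [hcard]; exact h3 _ h1
      · rw [hcard]; exact h3 _ h2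
      · intro k _
        rw [Polynomial.eval_mul, Polynomial.eval_C, Polynomial.eval_finset_sum]
        rw [Finset.sum_eq_single k]
        · rw [Polynomial.eval_mul, Polynomial.eval_C, lagP_eval_self]
          unfold lagE
          rw [← Finset.mul_prod_erase Finset.univ (lagD x) (Finset.mem_univ k)]
          ring
        · intro j _ hjk
          rw [Polynomial.eval_mul, lagP_eval_ne x j k (Ne.symm hjk), mul_zero]
        · intro h
          exact absurd (Finset.mem_univ k) h
  have := congrArg (fun q : E[X] => q.coeff a) key
  simp only [Polynomial.coeff_C_mul, Polynomial.finset_sum_coeff] at this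
  rw [this]
  refine Finset.sum_congr rfl fun j _ => ?_
  ring

end Pool.Agent.LRG.H52
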